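import Mathlib
import Pool.Agent.Y667.QKE.Stm
import Pool.Agent.Y858.QK.RootCore

/-!
# Project QK (helper667), MUL: the primes of multiplicative and of good reduction
-/

set_option autoImplicit false

namespace Pool.Agent.Y837.QKE

open Finset NumberField Ideal Pool.Agent.Y667.PA Pool.Agent.Y667.OG Pool.Agent.Y285.RP
  Pool.Agent.Y667.QK Pool.Agent.Y667.QK.EV

lemma aF_congr {F F' : Type} [Field F] [Field F'] (e : F ≃+* F') (V : WeierstrassCurve ℤ) :
    aF F V = aF F' V := by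
  unfold aF
  rw [Nat.card_congr e.toEquiv]
  congr 2
  refine Nat.card_congr (Equiv.subtypeEquiv (e.toEquiv.prodCongr e.toEquiv) ?_)
  intro z
  show (V.map (Int.castRingHom F)).toAffine.Equation z.1 z.2 ↔
    (V.map (Int.castRingHom F')).toAffine.Equation (e z.1) (e z.2)
  rw [WeierstrassCurve.Affine.equation_iff, WeierstrassCurve.Affine.equation_iff]
  simp only [WeierstrassCurve.map_a₁, WeierstrassCurve.map_a₂, WeierstrassCurve.map_a₃,
    WeierstrassCurve.map_a₄, WeierstrassCurve.map_a₆, eq_intCast]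
  rw [← e.injective.eq_iff]
  simp only [map_add, map_mul, map_pow, map_intCast]

section count

variable {F : Type} [Field F] [Fintype F] [DecidableEq F]

lemma node_aF' {p : ℕ} [Fact p.Prime] (hp2 : p ≠ 2) [CharP F p] {b c : ℤ} (hb : b % 4 = 1)
    (u α β : F) (hα : α ≠ 0)
    (hg : ∀ x : F, x * (4 * x + b) * (x - 8 * c) = (x - u) ^ 2 * (α * x + β)) :
    aF F (Vm b c) = quadraticChar F (α * u + β) := by
  have h1 : ringChar F ≠ 2 := by
    rw [ringChar.eq F p]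
    exact hp2
  unfold aF
  rw [nF_odd hp2 hb]
  have h2 : (Nat.card {z : F × F // z.2 ^ 2 = z.1 * (4 * z.1 + b) * (z.1 - 8 * c)} : ℤ) =
      Fintype.card F - quadraticChar F (α * u + β) := by
    rw [← count_node h1 u α β hα]
    congr 1
    apply Nat.card_congr
    exact Equiv.subtypeEquivRight fun z => by rw [hg]
  rw [h2, Nat.card_eq_fintype_card]
  ring

end count

lemma aF_pm {τ : ℕ} {s : Fin 3 → ℕ} (hτ8 : τ % 8 = 1) (h : DP s)
    (hcop : Nat.Coprime τ (∏ j, s j)) {p : ℕ}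
    (hp : p ∈ insert 2 (∏ j, s j).primeFactors) (F : Type) [Field F] [Fintype F] [CharP F p] :
    aF F (Vm ((τ : ℤ) * s 1) ((τ : ℤ) * s 2)) = 1 ∨
      aF F (Vm ((τ : ℤ) * s 1) ((τ : ℤ) * s 2)) = -1 := by
  classical
  have m8' : (s 1 : ℤ) % 8 = 1 := by have := h.m1; omega
  have hτ8' : (τ : ℤ) % 8 = 1 := by omega
  have m8 : ((τ : ℤ) * s 1) % 8 = 1 := by rw [Int.mul_emod, hτ8', m8']; norm_num
  have hb : ((τ : ℤ) * s 1) % 4 = 1 := by omega
  rw [mem_insert] at hp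
  rcases hp with rfl | hp
  · left
    rw [aF_two m8, ap_two m8]
  · have hpp := Nat.prime_of_mem_primeFactors hp
    have hpd := Nat.dvd_of_mem_primeFactors hp
    have : Fact p.Prime := ⟨hpp⟩
    have hp2 := h.pne hp
    have hpτ : ¬ p ∣ τ := fun h1 => hpp.one_lt.ne' (Nat.dvd_one.1 (by
      have := Nat.dvd_gcd h1 hpd
      rwa [hcop] at this))
    have hcast : ∀ n : ℕ, ¬ p ∣ n → ((n : ℕ) : F) ≠ 0 := fun n hn h1 =>
      hn ((CharP.cast_eq_zero_iff F p n).1 h1)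
    have h32 : (32 : F) ≠ 0 := by
      have : (32 : F) = 2 ^ 5 := by norm_num
      rw [this]
      exact pow_ne_zero _ (two_ne' hp2)
    obtain ⟨j, -, hj⟩ := (hpp.prime.dvd_finsetProd_iff _).1 hpd
    have hj' : ((s j : ℕ) : F) = 0 := (CharP.cast_eq_zero_iff F p _).2 hj
    have ht := hcast τ hpτ
    have ha : (s 0 : F) = s 1 + 32 * s 2 := by
      have := congrArg (Int.cast : ℤ → F) h.a_eq
      push_cast at this
      exact this
    have key : ∀ u α β : F, α ≠ 0 → (∀ x : F, x * (4 * x + (((τ : ℤ) * s 1 : ℤ) : F)) *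
        (x - 8 * (((τ : ℤ) * s 2 : ℤ) : F)) = (x - u) ^ 2 * (α * x + β)) →
        α * u + β ≠ 0 → aF F (Vm ((τ : ℤ) * s 1) ((τ : ℤ) * s 2)) = 1 ∨
          aF F (Vm ((τ : ℤ) * s 1) ((τ : ℤ) * s 2)) = -1 := by
      intro u α β hα hg hn
      rw [node_aF' hp2 hb u α β hα hg]
      exact quadraticChar_dichotomy hn
    rcases fin3 j with rfl | rfl | rfl
    · have h2 := hcast (s 2) (h.gcd_of hpp (by decide) hj)
      refine key (8 * ((τ : F) * s 2)) 4 0 (four_ne' hp2) ?_ ?_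
      · intro x
        push_cast
        rw [hj'] at ha
        linear_combination (-(x * (x - 8 * (τ * s 2)) * τ)) * ha
      · have e : (4 : F) * (8 * ((τ : F) * s 2)) + 0 = 32 * (τ * s 2) := by ring
        rw [e]
        exact mul_ne_zero h32 (mul_ne_zero ht h2)
    · have h2 := hcast (s 2) (h.gcd_of hpp (by decide) hj)
      refine key 0 4 (-(32 * ((τ : F) * s 2))) (four_ne' hp2) ?_ ?_
      · intro x
        push_cast
        linear_combination x * (x - 8 * (τ * s 2)) * τ * hj'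
      · have e : (4 : F) * 0 + -(32 * ((τ : F) * s 2)) = -(32 * (τ * s 2)) := by ring
        rw [e]
        exact neg_ne_zero.2 (mul_ne_zero h32 (mul_ne_zero ht h2))
    · have h1 := hcast (s 1) (h.gcd_of hpp (by decide) hj)
      refine key 0 4 ((τ : F) * s 1) (four_ne' hp2) ?_ ?_
      · intro x
        push_cast
        linear_combination (-8) * x * (4 * x + τ * s 1) * τ * hj'
      · have e : (4 : F) * 0 + (τ : F) * s 1 = τ * s 1 := by ring
        rw [e]
        exact mul_ne_zero ht h1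

/-- the residue fields of the primes over `p` are isomorphic -/
lemma quot_equiv {K : Type} [Field K] [NumberField K] [IsGalois ℚ K] {p : ℕ} (hp : p.Prime)
    (P Q : Ideal (𝓞 K)) (hP : P ∈ primesOver (span {(p : ℤ)}) (𝓞 K))
    (hQ : Q ∈ primesOver (span {(p : ℤ)}) (𝓞 K)) : Nonempty ((𝓞 K ⧸ P) ≃+* (𝓞 K ⧸ Q)) := by
  have : Fact p.Prime := ⟨hp⟩
  have hpz : Prime (p : ℤ) := Nat.prime_iff_prime_int.1 hp
  have hmax : (span {(p : ℤ)}).IsMaximal := Int.ideal_span_isMaximal_of_prime p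
  have hprime : (span {(p : ℤ)}).IsPrime := hmax.isPrime
  have hP1 : P.IsPrime := hP.1
  have hQ1 : Q.IsPrime := hQ.1
  have hPL : P.LiesOver (span {(p : ℤ)}) := hP.2
  have hQL : Q.LiesOver (span {(p : ℤ)}) := hQ.2
  have hP0 := over_ne hp hP
  have hQ0 := over_ne hp hQ
  have hPm : P.IsMaximal := hP1.isMaximal hP0
  have hQm : Q.IsMaximal := hQ1.isMaximal hQ0
  have cP := card_quot P hP1 hP0
  have cQ := card_quot Q hQ1 hQ0
  rw [below_eq hp hP, ← inertiaDegIn_eq_inertiaDeg (span {(p : ℤ)}) P Gal(K/ℚ)] at cP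
  rw [below_eq hp hQ, ← inertiaDegIn_eq_inertiaDeg (span {(p : ℤ)}) Q Gal(K/ℚ)] at cQ
  letI : Field (𝓞 K ⧸ P) := Ideal.Quotient.field P
  letI : Field (𝓞 K ⧸ Q) := Ideal.Quotient.field Q
  have fP : Finite (𝓞 K ⧸ P) := by
    apply Nat.finite_of_card_ne_zero
    rw [cP]
    exact pow_ne_zero _ hp.ne_zero
  have fQ : Finite (𝓞 K ⧸ Q) := by
    apply Nat.finite_of_card_ne_zero
    rw [cQ]
    exact pow_ne_zero _ hp.ne_zero
  letI : Fintype (𝓞 K ⧸ P) := Fintype.ofFinite _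
  letI : Fintype (𝓞 K ⧸ Q) := Fintype.ofFinite _
  exact ⟨FiniteField.ringEquivOfCardEq (by
    rw [← Nat.card_eq_fintype_card, ← Nat.card_eq_fintype_card, cP, cQ])⟩

theorem MUL : St_MUL := by
  classical
  intro τ s hA h hcop k hk K _ _ _
  have hτ8 : τ % 8 = 1 := Pool.Agent.Y858.QK.mod8 hA.sqf hA.m8
  have m8' : (s 1 : ℤ) % 8 = 1 := by have := h.m1; omega
  have hτ8' : (τ : ℤ) % 8 = 1 := by omega
  have m8 : ((τ : ℤ) * s 1) % 8 = 1 := by rw [Int.mul_emod, hτ8', m8']; norm_num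
  have hb : ((τ : ℤ) * s 1) % 4 = 1 := by omega
  have hb0 : (s 1 : ℤ) % 4 = 1 := by omega
  have e : ((τ : ℤ) * s 1) + 32 * ((τ : ℤ) * s 2) = τ * s 0 := by
    rw [h.a_eq]; ring
  have hm : ModelOf ⟨0, 0, 0, ((cc ((τ : ℤ) * s 0) ((τ : ℤ) * s 1) ((τ : ℤ) * k)).1 : ℚ),
      ((cc ((τ : ℤ) * s 0) ((τ : ℤ) * s 1) ((τ : ℤ) * k)).2 : ℚ)⟩
      (Vm ((τ : ℤ) * s 1) ((τ : ℤ) * s 2)) := by
    have := cc_model (b := (τ : ℤ) * s 1) (c := (τ : ℤ) * s 2) (k := τ * k) hb
      (by rw [e]; linear_combination (τ : ℤ) * hk)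
    rw [e] at this
    exact this
  have hmK := model_map (K := K) hm
  have hD : (Vm ((τ : ℤ) * s 1) ((τ : ℤ) * s 2)).Δ = τ ^ 6 * (Vm (s 1) (s 2)).Δ := by
    rw [Vm_disc hb, Vm_disc hb0]
    ring
  have hc4 : (Vm ((τ : ℤ) * s 1) ((τ : ℤ) * s 2)).c₄ = τ ^ 2 * (Vm (s 1) (s 2)).c₄ := by
    rw [Vm_c4 hb, Vm_c4 hb0]
    ring
  have hd0 : (Vm (s 1) (s 2)).Δ ≠ 0 := h.semi.1
  have hpr : ∀ p : ℕ, p.Prime → ((p : ℤ) ∣ (Vm (s 1) (s 2)).Δ ↔
      p ∈ insert 2 (∏ j, s j).primeFactors) := by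
    intro p hp
    rw [← h.primes, Nat.mem_primeFactors]
    exact ⟨fun h => ⟨hp, Int.natCast_dvd.1 h, Int.natAbs_ne_zero.2 hd0⟩,
      fun h => Int.natCast_dvd.2 h.2.1⟩
  have hne : ∀ p : ℕ, p.Prime → ¬ p ∣ τ → ∀ n : ℕ, ∀ x : ℤ, (p : ℤ) ∣ (τ : ℤ) ^ n * x →
      (p : ℤ) ∣ x := by
    intro p hp hpt n x hx
    rcases (Nat.prime_iff_prime_int.1 hp).dvd_or_dvd hx with h | h
    · exact absurd (Int.natCast_dvd_natCast.1
        ((Nat.prime_iff_prime_int.1 hp).dvd_of_dvd_pow h)) hpt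
    · exact h
  constructor
  · intro p hp
    have hpp : p.Prime := by
      rcases mem_insert.1 hp with rfl | hp
      · exact Nat.prime_two
      · exact Nat.prime_of_mem_primeFactors hp
    have hpτ : ¬ p ∣ τ := by
      intro h1
      rcases mem_insert.1 hp with rfl | hp
      · omega
      · have := Nat.dvd_gcd h1 (Nat.dvd_of_mem_primeFactors hp)
        rw [hcop] at this
        exact hpp.one_lt.ne' (Nat.dvd_one.1 this)
    by_cases hex : ∃ P0, P0 ∈ primesOver (span {(p : ℤ)}) (𝓞 K)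
    · obtain ⟨P0, hP0⟩ := hex
      have h1 : ∀ P ∈ primesOver (span {(p : ℤ)}) (𝓞 K),
          aP ((Vm ((τ : ℤ) * s 1) ((τ : ℤ) * s 2)).map (Int.castRingHom (𝓞 K))) P =
          aP ((Vm ((τ : ℤ) * s 1) ((τ : ℤ) * s 2)).map (Int.castRingHom (𝓞 K))) P0 := by
        intro P hP
        have hPm : P.IsMaximal := hP.1.isMaximal (over_ne hpp hP)
        have hQm : P0.IsMaximal := hP0.1.isMaximal (over_ne hpp hP0)
        letI : Field (𝓞 K ⧸ P) := Ideal.Quotient.field P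
        letI : Field (𝓞 K ⧸ P0) := Ideal.Quotient.field P0
        obtain ⟨eq⟩ := quot_equiv hpp P P0 hP hP0
        rw [aP_eq, aP_eq]
        exact aF_congr eq _
      refine ⟨-aP ((Vm ((τ : ℤ) * s 1) ((τ : ℤ) * s 2)).map (Int.castRingHom (𝓞 K))) P0, ?_, ?_⟩
      · have hP00 := over_ne hpp hP0
        have hQm : P0.IsMaximal := hP0.1.isMaximal hP00
        letI : Field (𝓞 K ⧸ P0) := Ideal.Quotient.field P0
        have hfin : Finite (𝓞 K ⧸ P0) := by
          apply Nat.finite_of_card_ne_zero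
          rw [card_quot P0 hP0.1 hP00, below_eq hpp hP0]
          exact pow_ne_zero _ hpp.ne_zero
        letI : Fintype (𝓞 K ⧸ P0) := Fintype.ofFinite _
        have hch : CharP (𝓞 K ⧸ P0) p := by
          have := charP_quot P0
          rwa [below_eq hpp hP0] at this
        rw [aP_eq]
        rcases aF_pm hτ8 h hcop hp (𝓞 K ⧸ P0) with h2 | h2
        · right; rw [h2]
        · left; rw [h2]; norm_num
      · intro P hP
        refine Or.inr (Or.inl ⟨_, hmK, ?_, ?_, ?_⟩)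
        · rw [WeierstrassCurve.map_Δ, int_mem, below_eq hpp hP, hD]
          exact ((hpr p hpp).2 hp).mul_left _
        · rw [WeierstrassCurve.map_c₄, int_mem, below_eq hpp hP, hc4]
          intro hd
          exact h.semi.2 p hpp ((hpr p hpp).2 hp) (hne p hpp hpτ 2 _ hd)
        · rw [h1 P hP]
    · exact ⟨1, Or.inl rfl, fun P hP => absurd ⟨P, hP⟩ hex⟩
  · intro P hP1 hP2 hPτ hPn
    have hpp := below_prime P hP1 hP2
    refine Or.inl ⟨_, hmK, ?_, rfl⟩
    rw [WeierstrassCurve.map_Δ, int_mem, hD]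
    intro hd
    exact hPn ((hpr _ hpp).1 (hne _ hpp hPτ 6 _ hd))

end Pool.Agent.Y837.QKE
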